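import Pool.Agent.Whl.Main
import Pool.Agent.Wsp.Cel

/-!
# Vertices of small degree in a graph partitioned into `q` parts, any two of which induce a
degenerate graph (MP_e2a513_co)
-/

set_option autoImplicit false

namespace Wli

open Finset TurMod

variable {V : Type}

/-- the sum of the degrees in a `D`-degenerate set -/
lemma sum_dg (G : SimpleGraph V) (D : ℕ) (X : Finset V)
    (h : ∀ U ⊆ X, U.Nonempty → ∃ v ∈ U, dg G U v ≤ D) :
    ∑ v ∈ X, dg G X v ≤ 2 * (D * X.card) := by
  classical
  obtain ⟨ρ, hρ, hback0⟩ := Whl.exists_rank G D X h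
  have hback : ∀ v ∈ X, (X.filter (fun u => G.Adj v u ∧ ρ u < ρ v)).card ≤ D := by
    intro v hv
    refine le_trans (le_of_eq ?_) (hback0 v hv)
    rw [dg, Finset.filter_filter]
    congr 1
    ext u
    simp only [mem_filter]
    tauto
  have h1 : ∀ v ∈ X, dg G X v = (X.filter (fun u => G.Adj v u ∧ ρ u < ρ v)).card +
      (X.filter (fun u => G.Adj v u ∧ ρ v < ρ u)).card := by
    intro v hv
    rw [dg, ← card_union_of_disjoint]
    · congr 1
      ext u
      simp only [mem_filter, mem_union]
      constructor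
      · rintro ⟨h1, h2⟩
        have hne : ρ u ≠ ρ v := by
          intro h
          have := hρ (mem_coe.2 h1) (mem_coe.2 hv) h
          exact G.ne_of_adj h2 this.symm
        rcases lt_or_gt_of_ne hne with h | h
        · exact Or.inl ⟨h1, h2, h⟩
        · exact Or.inr ⟨h1, h2, h⟩
      · rintro (⟨h1, h2, _⟩ | ⟨h1, h2, _⟩) <;> exact ⟨h1, h2⟩
    · rw [Finset.disjoint_left]
      intro u hu hu'
      rw [mem_filter] at hu hu'
      omega
  have h2 : ∑ v ∈ X, (X.filter (fun u => G.Adj v u ∧ ρ v < ρ u)).card =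
      ∑ v ∈ X, (X.filter (fun u => G.Adj v u ∧ ρ u < ρ v)).card := by
    have := Finset.sum_card_bipartiteAbove_eq_sum_card_bipartiteBelow (s := X) (t := X)
      (fun v u => G.Adj v u ∧ ρ v < ρ u)
    simp only [bipartiteAbove, bipartiteBelow] at this
    rw [this]
    apply sum_congr rfl
    intro v _
    congr 1
    ext u
    simp only [mem_filter, G.adj_comm]
  rw [sum_congr rfl h1, sum_add_distrib, h2]
  have h3 : ∑ v ∈ X, (X.filter (fun u => G.Adj v u ∧ ρ u < ρ v)).card ≤ D * X.card := by
    calc _ ≤ ∑ v ∈ X, D := sum_le_sum hback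
      _ = D * X.card := by rw [sum_const, smul_eq_mul, mul_comm]
  omega

/-- ordered pairs with `k` -/
lemma pairs {q : ℕ} (k : Fin q) (f : Fin q → Fin q → ℕ) :
    ∑ i, ∑ j ∈ univ.erase i, (if k = i ∨ k = j then f i j else 0) =
      ∑ j ∈ univ.erase k, f k j + ∑ i ∈ univ.erase k, f i k := by
  classical
  have h1 : ∀ i : Fin q, ∑ j ∈ univ.erase i, (if k = i ∨ k = j then f i j else 0) =
      ∑ j ∈ univ.erase i, (if k = i then f i j else 0) +
        ∑ j ∈ univ.erase i, (if k = j then f i j else 0) := by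
    intro i
    rw [← sum_add_distrib]
    refine sum_congr rfl ?_
    intro j hj
    have hji := ne_of_mem_erase hj
    by_cases h1 : k = i
    · have h2 : ¬ k = j := fun h => hji (h.symm.trans h1)
      simp [h1]
      intro h
      exact absurd h.symm hji
    · by_cases h2 : k = j
      · simp [h2]
        intro h
        exact absurd h hji
      · simp [h1, h2]
  rw [sum_congr rfl (fun i _ => h1 i), sum_add_distrib]
  congr 1
  · rw [Finset.sum_eq_single k]
    · simp
    · intro i _ hi
      refine sum_eq_zero ?_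
      intro j _
      rw [if_neg]
      exact fun h => hi h.symm
    · intro h
      exact absurd (mem_univ k) h
  · have h2 : ∀ i : Fin q, ∑ j ∈ univ.erase i, (if k = j then f i j else 0) =
        if i ≠ k then f i k else 0 := by
      intro i
      by_cases hi : i = k
      · subst hi
        rw [if_neg (by simp)]
        refine sum_eq_zero ?_
        intro j hj
        rw [if_neg]
        exact fun h => (ne_of_mem_erase hj) h.symm
      · rw [if_pos hi, Finset.sum_eq_single k]
        · simp
        · intro j _ hj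
          rw [if_neg]
          exact fun h => hj h.symm
        · intro h
          exact absurd (mem_erase.2 ⟨fun h => hi h.symm, mem_univ k⟩) h
    rw [sum_congr rfl (fun i _ => h2 i), ← Finset.sum_filter]
    refine sum_congr ?_ (fun _ _ => rfl)
    ext i
    simp

/-- a vertex of small degree -/
lemma low [Fintype V] (G : SimpleGraph V) {q D : ℕ} (hq : 2 ≤ q) (g : V → Fin q) (X : Finset V)
    (hX : X.Nonempty)
    (h : ∀ i j, i ≠ j → ∀ U ⊆ X, (∀ x ∈ U, g x = i ∨ g x = j) → U.Nonempty →
      ∃ v ∈ U, dg G U v ≤ D) :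
    ∃ v ∈ X, dg G X v ≤ 2 * D * (q - 1) := by
  classical
  obtain ⟨P, hP⟩ : ∃ P : Fin q → Fin q → Finset V, P = fun i j => X.filter
    (fun x => g x = i ∨ g x = j) := ⟨_, rfl⟩
  have hPs : ∀ i j (F : V → ℕ), ∑ v ∈ P i j, F v =
      ∑ v ∈ X, if g v = i ∨ g v = j then F v else 0 := by
    intro i j F
    rw [hP, Finset.sum_filter]
  have hT1 : ∑ i, ∑ j ∈ univ.erase i, ∑ v ∈ P i j, dg G (P i j) v ≤
      ∑ i, ∑ j ∈ univ.erase i, ∑ v ∈ P i j, 2 * D := by
    refine sum_le_sum fun i _ => sum_le_sum fun j hj => ?_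
    rw [sum_const, smul_eq_mul]
    refine (sum_dg G D (P i j) ?_).trans (le_of_eq (by ring))
    intro U hU hne
    refine h i j (ne_of_mem_erase hj).symm U ?_ ?_ hne
    · intro x hx
      have := hU hx
      rw [hP] at this
      exact (mem_filter.1 this).1
    · intro x hx
      have := hU hx
      rw [hP] at this
      exact (mem_filter.1 this).2
  have hsw : ∀ F : Fin q → Fin q → V → ℕ, ∑ i, ∑ j ∈ univ.erase i, ∑ v ∈ P i j, F i j v =
      ∑ v ∈ X, (∑ j ∈ univ.erase (g v), F (g v) j v + ∑ i ∈ univ.erase (g v), F i (g v) v) := by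
    intro F
    calc ∑ i, ∑ j ∈ univ.erase i, ∑ v ∈ P i j, F i j v
        = ∑ i, ∑ j ∈ univ.erase i, ∑ v ∈ X, (if g v = i ∨ g v = j then F i j v else 0) := by
          refine sum_congr rfl fun i _ => sum_congr rfl fun j _ => ?_
          exact hPs i j _
      _ = ∑ i, ∑ v ∈ X, ∑ j ∈ univ.erase i, (if g v = i ∨ g v = j then F i j v else 0) :=
          sum_congr rfl fun i _ => sum_comm
      _ = ∑ v ∈ X, ∑ i, ∑ j ∈ univ.erase i, (if g v = i ∨ g v = j then F i j v else 0) :=
          sum_comm
      _ = _ := sum_congr rfl fun v _ => pairs (g v) (fun i j => F i j v)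
  rw [hsw, hsw] at hT1
  by_contra hno
  push Not at hno
  have hcov1 : ∀ v ∈ X, dg G X v ≤ ∑ j ∈ univ.erase (g v), dg G (P (g v) j) v := by
    intro v hv
    have h1 : dg G X v ≤ ((univ.erase (g v)).biUnion
        (fun j => (P (g v) j).filter (fun w => G.Adj v w))).card := by
      rw [dg]
      refine card_le_card ?_
      intro w hw
      rw [mem_filter] at hw
      rw [mem_biUnion]
      by_cases hgw : g w = g v
      · have : ∃ j : Fin q, j ≠ g v := by
          have h2 : Nontrivial (Fin q) := Fin.nontrivial_iff_two_le.2 hq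
          exact exists_ne (g v)
        obtain ⟨j, hj⟩ := this
        refine ⟨j, mem_erase.2 ⟨hj, mem_univ _⟩, ?_⟩
        rw [mem_filter, hP, mem_filter]
        exact ⟨⟨hw.1, Or.inl hgw⟩, hw.2⟩
      · refine ⟨g w, mem_erase.2 ⟨hgw, mem_univ _⟩, ?_⟩
        rw [mem_filter, hP, mem_filter]
        exact ⟨⟨hw.1, Or.inr rfl⟩, hw.2⟩
    refine h1.trans (card_biUnion_le.trans (le_of_eq ?_))
    rfl
  have hcov2 : ∀ v ∈ X, dg G X v ≤ ∑ i ∈ univ.erase (g v), dg G (P i (g v)) v := by
    intro v hv
    refine (hcov1 v hv).trans (le_of_eq (sum_congr rfl ?_))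
    intro j _
    congr 1
    rw [hP]
    ext w
    simp only [mem_filter]
    tauto
  have h3 : ∑ v ∈ X, (2 * (2 * D * (q - 1)) + 1) ≤ ∑ v ∈ X,
      (∑ j ∈ univ.erase (g v), dg G (P (g v) j) v + ∑ i ∈ univ.erase (g v), dg G (P i (g v)) v) := by
    refine sum_le_sum fun v hv => ?_
    have h4 := hno v hv
    have h5 := hcov1 v hv
    have h6 := hcov2 v hv
    omega
  have h7 : ∑ v ∈ X, (∑ j ∈ univ.erase (g v), 2 * D + ∑ i ∈ univ.erase (g v), 2 * D) =
      ∑ v ∈ X, 2 * (2 * D * (q - 1)) := by
    refine sum_congr rfl fun v _ => ?_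
    rw [sum_const, card_erase_of_mem (mem_univ _), card_univ, Fintype.card_fin, smul_eq_mul]
    ring
  rw [h7] at hT1
  have h8 := h3.trans hT1
  rw [sum_const, sum_const, smul_eq_mul, smul_eq_mul] at h8
  have h9 : 0 < X.card := card_pos.2 hX
  nlinarith

/-- wheels of induced subgraphs -/
lemma wheel_induce {G : SimpleGraph V} (S : Set V) (h : Whl.HasWheel (G.induce S)) :
    Whl.HasWheel G := by
  obtain ⟨n, hn, c, h, hh, i, j, k, hij, hik, hjk, h1, h2, h3⟩ := h
  refine ⟨n, hn, (SimpleGraph.Embedding.induce S).comp c, h, ?_, i, j, k, hij, hik, hjk, h1, h2,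
    h3⟩
  rintro ⟨i, hi⟩
  exact hh ⟨i, Subtype.ext hi⟩

/-- in a wheel-free graph without induced `K_{s,s}` the degeneracy is at most linear in `ω` -/
theorem linear (s : ℕ) : ∃ c : ℕ, ∀ {V : Type} [Finite V] (G : SimpleGraph V) (w : ℕ),
    ¬ Whl.HasWheel G → G.CliqueFree (w + 1) →
    IsEmpty (completeBipartiteGraph (Fin s) (Fin s) ↪g G) →
    G.Colorable (c * w) ∧ (Nonempty V → ∃ v, (G.neighborSet v).ncard ≤ c * w) := by
  classical
  obtain ⟨D, hD⟩ := Whl.chi_bounded 4 s
  refine ⟨D + 1, ?_⟩
  intro V _ G w hG hw he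
  have := Fintype.ofFinite V
  -- every nonempty set whose cliques have at most four elements has a vertex of degree `≤ D`
  have four : ∀ U : Finset V, U.Nonempty →
      (∀ T ⊆ U, (∀ x ∈ T, ∀ y ∈ T, x ≠ y → G.Adj x y) → T.card ≤ 4) →
      ∃ v ∈ U, dg G U v ≤ D := by
    intro U hU hT
    have hne : Nonempty (U : Set V) := by
      obtain ⟨x, hx⟩ := hU
      exact ⟨⟨x, hx⟩⟩
    obtain ⟨v, hv⟩ := (hD (G.induce (U : Set V)) (fun h => hG (wheel_induce _ h)) (by
      intro K hK
      have h1 := hT (K.map ⟨Subtype.val, Subtype.val_injective⟩) (by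
        intro x hx
        rw [mem_map] at hx
        obtain ⟨y, _, rfl⟩ := hx
        exact y.2) (by
        intro x hx y hy hxy
        rw [mem_map] at hx hy
        obtain ⟨x, hx, rfl⟩ := hx
        obtain ⟨y, hy, rfl⟩ := hy
        exact hK.isClique hx hy (fun h => hxy (by rw [h])))
      rw [card_map, hK.card_eq] at h1
      omega) ⟨fun e => he.false ((SimpleGraph.Embedding.induce _).comp e)⟩).2 hne
    refine ⟨v, v.2, le_trans (le_of_eq ?_) hv⟩
    rw [dg, ← Set.ncard_coe_finset, ← Set.ncard_image_of_injective _ Subtype.val_injective]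
    congr 1
    ext x
    constructor
    · intro hx
      rw [mem_coe, mem_filter] at hx
      exact ⟨⟨x, hx.1⟩, hx.2, rfl⟩
    · rintro ⟨y, hy, rfl⟩
      rw [mem_coe, mem_filter]
      exact ⟨y.2, hy⟩
  rcases Nat.eq_zero_or_pos w with h0 | h0
  · subst h0
    have hem : IsEmpty V := by
      refine ⟨fun v => hw {v} ?_⟩
      rw [SimpleGraph.isNClique_iff]
      refine ⟨?_, card_singleton v⟩
      intro x hx y hy hxy
      rw [coe_singleton, Set.mem_singleton_iff] at hx hy
      exact absurd (hx.trans hy.symm) hxy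
    exact ⟨SimpleGraph.Colorable.of_isEmpty _, fun h => (hem.false h.some).elim⟩
  have hcl : ∀ T : Finset V, (∀ x ∈ T, ∀ y ∈ T, x ≠ y → G.Adj x y) → T.card ≤ w := by
    intro T hT
    by_contra hcon
    obtain ⟨T', hT', hc⟩ := exists_subset_card_eq (show w + 1 ≤ T.card by omega)
    refine hw T' ?_
    rw [SimpleGraph.isNClique_iff]
    exact ⟨fun x hx y hy hxy => hT x (hT' hx) y (hT' hy) hxy, hc⟩
  have key : ∀ X : Finset V, X.Nonempty → ∃ v ∈ X, dg G X v ≤ D * w := by
    intro X hX
    by_cases hq : (w + 1) / 2 < 2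
    · obtain ⟨v, hv, h⟩ := four X hX (fun T _ hT => (hcl T hT).trans (by omega))
      exact ⟨v, hv, h.trans (Nat.le_mul_of_pos_right D h0)⟩
    · obtain ⟨g, hg⟩ := Wsp.cel hG hw (q := (w + 1) / 2) (by omega) (fun _ => 2)
        (fun _ => le_rfl) (by
          rw [sum_const, card_univ, Fintype.card_fin, smul_eq_mul]
          omega) _ Set.univ le_rfl
      obtain ⟨v, hv, h⟩ := low G (q := (w + 1) / 2) (D := D) (by omega) g X hX (by
        intro i j hij U _ hU hne
        refine four U hne ?_
        intro T hTU hT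
        have h1 := hg (T.filter (fun x => g x = i)) (fun x _ => Set.mem_univ x)
          (fun x hx y hy hxy => hT x (mem_filter.1 hx).1 y (mem_filter.1 hy).1 hxy) i
          (fun x hx => (mem_filter.1 hx).2)
        have h2 := hg (T.filter (fun x => g x = j)) (fun x _ => Set.mem_univ x)
          (fun x hx y hy hxy => hT x (mem_filter.1 hx).1 y (mem_filter.1 hy).1 hxy) j
          (fun x hx => (mem_filter.1 hx).2)
        have h3 : T ⊆ T.filter (fun x => g x = i) ∪ T.filter (fun x => g x = j) := by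
          intro x hx
          rw [mem_union, mem_filter, mem_filter]
          rcases hU x (hTU hx) with h | h
          · exact Or.inl ⟨hx, h⟩
          · exact Or.inr ⟨hx, h⟩
        have h4 := (card_le_card h3).trans (card_union_le _ _)
        have h5 : (2 : ℕ) + 2 = 4 := rfl
        omega)
      refine ⟨v, hv, h.trans ?_⟩
      have h6 : 2 * ((w + 1) / 2 - 1) ≤ w := by omega
      calc 2 * D * ((w + 1) / 2 - 1) = D * (2 * ((w + 1) / 2 - 1)) := by ring
        _ ≤ D * w := Nat.mul_le_mul_left D h6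
  refine ⟨(Whl.colorable_of_degen G (D * w) key).mono ?_, fun hne => ?_⟩
  · rw [add_mul, one_mul]
    omega
  obtain ⟨v, _, hv⟩ := key univ univ_nonempty
  refine ⟨v, ?_⟩
  have h1 : (G.neighborSet v).ncard = dg G univ v := by
    unfold dg
    rw [← Set.ncard_coe_finset]
    congr 1
    ext w
    simp
  rw [h1, add_mul, one_mul]
  omega

end Wli
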